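import Pool.Agent.H38.SE.TarB

/-! # SE, module BC: the structure of conditions -/

set_option linter.unusedVariables false

open Ordinal Order Set
open scoped ZFSet

namespace H34SE

open SF SE

theorem bc_app_empty (p i : V) (h : i ∉ dm p) : app p i = ∅ := by
  unfold app
  have h1 : ((⋃₀ (⋃₀ p : ZFSet) : ZFSet).sep fun y => ZFSet.pair i y ∈ p) = ∅ := by
    rw [ZFSet.eq_empty]
    intro y hy
    rw [ZFSet.mem_sep] at hy
    exact h (mem_dm.2 ⟨y, hy.2⟩)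
  rw [h1]
  rw [ZFSet.eq_empty]
  intro y hy
  rw [ZFSet.mem_sUnion] at hy
  obtain ⟨z, hz, _⟩ := hy
  exact ZFSet.notMem_empty z hz

theorem bc_pair {p i : V} (hS : Svl p) (hi : i ∈ dm p) : ZFSet.pair i (app p i) ∈ p := by
  obtain ⟨y, hy⟩ := mem_dm.1 hi
  rw [app_eq hS hy]
  exact hy

theorem bc_of_mem {p z : V} (hp : FF p) (hz : z ∈ p) : ∃ i ∈ dm p, z = ZFSet.pair i (app p i) := by
  obtain ⟨i, y, rfl⟩ := hp.2.2 z hz
  exact ⟨i, mem_dm.2 ⟨y, hz⟩, by rw [app_eq hp.2.1 hz]⟩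

theorem bc_eq {p : V} (hp : FF p) : p = resS (dm p) (app p) := by
  ext z
  rw [mem_resS]
  constructor
  · intro hz
    obtain ⟨i, hi, h⟩ := bc_of_mem hp hz
    exact ⟨i, hi, h.symm⟩
  · rintro ⟨i, hi, rfl⟩
    exact bc_pair hp.2.1 hi

theorem bc_dmfin {p : V} (hp : FF p) : (dm p : Set V).Finite := by
  refine (hp.1.image fst).subset ?_
  intro i hi
  have hi' : i ∈ dm p := hi
  exact ⟨_, bc_pair hp.2.1 hi', fst_pair _ _⟩

theorem bc_res (a : V) (f : V → V) (ha : (a : Set V).Finite) : FF (resS a f) := by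
  refine ⟨?_, svl_resS a f, ?_⟩
  · refine (ha.image fun x => ZFSet.pair x (f x)).subset ?_
    intro z hz
    have hz' : z ∈ resS a f := hz
    obtain ⟨x, hx, rfl⟩ := mem_resS.1 hz'
    exact ⟨x, hx, rfl⟩
  · intro z hz
    obtain ⟨x, hx, rfl⟩ := mem_resS.1 hz
    exact ⟨_, _, rfl⟩

theorem bc_ext {p q : V} (hp : FF p) (hq : FF q) (h1 : dm p = dm q)
    (h2 : ∀ i ∈ dm p, app p i = app q i) : p = q := by
  rw [bc_eq hp, bc_eq hq, ← h1]
  exact resS_congr h2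

theorem bc_mem_rst {S p z : V} : z ∈ rst S p ↔ z ∈ p ∧ fst z ∈ S := by
  unfold rst
  rw [ZFSet.mem_sep]

theorem bc_dm_rst {S p i : V} : i ∈ dm (rst S p) ↔ i ∈ dm p ∧ i ∈ S := by
  rw [mem_dm, mem_dm]
  constructor
  · rintro ⟨y, hy⟩
    rw [bc_mem_rst, fst_pair] at hy
    exact ⟨⟨y, hy.1⟩, hy.2⟩
  · rintro ⟨⟨y, hy⟩, hi⟩
    exact ⟨y, bc_mem_rst.2 ⟨hy, by rwa [fst_pair]⟩⟩

theorem bc_rst_ff {S p : V} (hp : FF p) : FF (rst S p) := by
  refine ⟨hp.1.subset ?_, ?_, ?_⟩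
  · intro z hz
    exact (bc_mem_rst.1 hz).1
  · intro x y z hy hz
    exact hp.2.1 x y z (bc_mem_rst.1 hy).1 (bc_mem_rst.1 hz).1
  · intro z hz
    exact hp.2.2 z (bc_mem_rst.1 hz).1

theorem bc_rst_app {S p i : V} (hp : FF p) (hi : i ∈ S) : app (rst S p) i = app p i := by
  by_cases h : i ∈ dm p
  · have h1 := bc_pair hp.2.1 h
    exact app_eq (bc_rst_ff hp).2.1 (bc_mem_rst.2 ⟨h1, by rwa [fst_pair]⟩)
  · rw [bc_app_empty _ _ h, bc_app_empty _ _ fun h' => h (bc_dm_rst.1 h').1]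

theorem bc_mem_Fs {x y : V} : y ∈ Fs x ↔ y ⊆ x ∧ (y : Set V).Finite := by
  unfold Fs
  rw [ZFSet.mem_sep, ZFSet.mem_powerset]

theorem bc_mem_Qs {L x : V} : x ∈ Qs L ↔ x = ZFSet.pair (fst x) (snd x) ∧ fst x ∈ sq ∧
    snd x ∈ Fs L := by
  unfold Qs
  rw [ZFSet.mem_prod]
  constructor
  · rintro ⟨a, ha, b, hb, rfl⟩
    rw [fst_pair, snd_pair]
    exact ⟨rfl, ha, hb⟩
  · rintro ⟨h, ha, hb⟩
    exact ⟨_, ha, _, hb, h⟩

theorem bc_pos (L ρ p : V) : p ∈ Pos L ρ ↔ FF p ∧ dm p ⊆ ρ ∧ ∀ i ∈ dm p, Co L p i := by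
  unfold Pos
  rw [ZFSet.mem_sep, bc_mem_Fs]
  constructor
  · rintro ⟨⟨hsub, hfin⟩, hS, hv⟩
    have hFF : FF p := by
      refine ⟨hfin, hS, ?_⟩
      intro z hz
      obtain ⟨a, _, b, _, h⟩ := ZFSet.mem_prod.1 (hsub hz)
      exact ⟨a, b, h⟩
    refine ⟨hFF, ?_, ?_⟩
    · intro i hi
      exact (ZFSet.pair_mem_prod.1 (hsub (bc_pair hS hi))).1
    · intro i hi
      have h1 := (ZFSet.pair_mem_prod.1 (hsub (bc_pair hS hi))).2
      obtain ⟨h2, h3, h4⟩ := bc_mem_Qs.1 h1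
      exact ⟨h2, h3, h4, hv i hi⟩
  · rintro ⟨hFF, hd, hC⟩
    refine ⟨⟨?_, hFF.1⟩, hFF.2.1, fun i hi => (hC i hi).v⟩
    intro z hz
    obtain ⟨i, hi, rfl⟩ := bc_of_mem hFF hz
    exact ZFSet.pair_mem_prod.2 ⟨hd hi, bc_mem_Qs.2 ⟨(hC i hi).eq, (hC i hi).s, (hC i hi).f⟩⟩

theorem bc_dm_upd (p i x : V) : dm (upd p i x) = insert i (dm p) := by
  unfold upd
  rw [dm_resS]

theorem bc_upd_ff {p : V} (hp : FF p) (i x : V) : FF (upd p i x) := by
  unfold upd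
  refine bc_res _ _ ?_
  refine ((bc_dmfin hp).insert i).subset ?_
  intro z hz
  have hz' : z ∈ (insert i (dm p) : V) := hz
  rw [ZFSet.mem_insert_iff] at hz'
  exact hz'

theorem bc_upd_app (p i x : V) : app (upd p i x) i = x := by
  unfold upd
  rw [app_resS (ZFSet.mem_insert_iff.2 (Or.inl rfl))]
  rw [if_pos rfl]

theorem bc_upd_app_ne (p i x k : V) (hk : k ≠ i) : app (upd p i x) k = app p k := by
  by_cases h : k ∈ dm p
  · unfold upd
    rw [app_resS (ZFSet.mem_insert_iff.2 (Or.inr h))]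
    rw [if_neg hk]
  · rw [bc_app_empty _ _ h, bc_app_empty]
    rw [bc_dm_upd, ZFSet.mem_insert_iff]
    rintro (h' | h')
    · exact hk h'
    · exact h h'

theorem bc (AB : T_AB) (AF : T_AF) : T_BC := by
  refine ⟨fun p hp => ⟨bc_eq hp, bc_dmfin hp, fun i hi => bc_pair hp.2.1 hi,
    fun z hz => bc_of_mem hp hz⟩, bc_res, fun p q hp hq h1 h2 => bc_ext hp hq h1 h2, bc_pos,
    ?_, ?_, ?_, fun p i h => bc_app_empty p i h, ?_, ?_, ?_⟩
  · intro S p hp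
    refine ⟨bc_rst_ff hp, fun i => bc_dm_rst, fun i hi => bc_rst_app hp hi, fun h => ?_⟩
    ext z
    rw [bc_mem_rst]
    refine ⟨fun h' => h'.1, fun hz => ⟨hz, ?_⟩⟩
    obtain ⟨i, hi, rfl⟩ := bc_of_mem hp hz
    rw [fst_pair]
    exact h hi
  · intro S T p
    ext z
    rw [bc_mem_rst, bc_mem_rst, bc_mem_rst, ZFSet.mem_inter]
    tauto
  · intro S T p h
    ext z
    rw [bc_mem_rst, bc_mem_rst, bc_mem_rst]
    constructor
    · rintro ⟨⟨h1, _⟩, h2⟩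
      exact ⟨h1, h2⟩
    · rintro ⟨h1, h2⟩
      exact ⟨⟨h1, h h2⟩, h2⟩
  · refine fst_eq_of_not ?_
    rintro ⟨x, y, h⟩
    have : ({x} : V) ∈ (∅ : V) := by
      rw [h]
      unfold ZFSet.pair
      exact ZFSet.mem_pair.2 (Or.inl rfl)
    exact ZFSet.notMem_empty _ this
  · refine snd_eq_of_not ?_
    rintro ⟨x, y, h⟩
    have : ({x} : V) ∈ (∅ : V) := by
      rw [h]
      unfold ZFSet.pair
      exact ZFSet.mem_pair.2 (Or.inl rfl)
    exact ZFSet.notMem_empty _ this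
  · intro p i x hp
    refine ⟨bc_upd_ff hp i x, bc_dm_upd p i x, bc_upd_app p i x,
      fun k hk => bc_upd_app_ne p i x k hk, ?_⟩
    intro S hS
    refine bc_ext (bc_rst_ff (bc_upd_ff hp i x)) (bc_rst_ff hp) ?_ ?_
    · ext k
      rw [bc_dm_rst, bc_dm_rst, bc_dm_upd, ZFSet.mem_insert_iff]
      constructor
      · rintro ⟨h | h, h2⟩
        · exact absurd (h ▸ h2) hS
        · exact ⟨h, h2⟩
      · rintro ⟨h, h2⟩
        exact ⟨Or.inr h, h2⟩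
    · intro k hk
      have hkS := (bc_dm_rst.1 hk).2
      rw [bc_rst_app (bc_upd_ff hp i x) hkS, bc_rst_app hp hkS]
      refine bc_upd_app_ne p i x k ?_
      rintro rfl
      exact hS hkS

end H34SE
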