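import Pool.Agent.H38.SE.TarB

/-! # SE, module BJ: the forcing notions and their generic extensions -/

set_option linter.unusedVariables false

open Ordinal Order Set
open scoped ZFSet

namespace H34SE

open SF SE

theorem bj (BBa : T_BBa) (BC : T_BC) (BD : T_BD) (BE : T_BE) (FE : T_FE) (FI : T_FI)
    (FK : T_FK) (FL : T_FL) (FM : T_FM) : T_BJ := by
  intro D hD
  have hzf : ZFm D.N := hD.zfc.toZFCm.toZFm
  have hL : D.N D.L := hzf.trans _ hD.hN _ hD.lH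
  obtain ⟨b1, b2, b3, b4, b5, b6, b7, b8⟩ := BD
  obtain ⟨-, -, -, -, -, -, -, -, -, -, -, -, tP, tR, -⟩ := BBa
  have hPR : ∀ ρ, D.N ρ → D.N (D.P ρ) ∧ D.N (D.R ρ) := by
    intro ρ hρ
    have hv : In D.N (cons D.L fun _ => ρ) := In.cons (fun _ => hρ) hL
    have e0 : cons D.L (fun _ => ρ) 0 = D.L := rfl
    have e1 : cons D.L (fun _ => ρ) 1 = ρ := rfl
    have h1 := tP.1 D.N hzf _ hv
    have h2 := tR.1 D.N hzf _ hv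
    simp only [e0, e1] at h1 h2
    exact ⟨h1, h2⟩
  refine ⟨hL, ?_, fun x hx => hzf.trans _ hD.hN _ hx, hPR, ?_⟩
  · intro y hy z hz
    exact hD.zfH.trans y hy z hz
  intro ρ hρ hC
  obtain ⟨hP, hR⟩ := hPR ρ hρ
  have hpo : IsPo (D.P ρ) (D.R ρ) := b8 D.L ρ
  refine ⟨fun p hp => FM D.N (D.P ρ) (D.R ρ) p hD.ctb hpo hp, ?_⟩
  intro G hG
  have hG' : Gen D.N (D.P ρ) (D.R ρ) G := hG
  obtain ⟨i1, i2, i3⟩ := FI D.N _ _ G hzf hP hR hpo hG'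
  have hfil := hG'.1
  have hmem : ∀ p ∈ G, p ∈ Pos D.L ρ := fun p hp => hfil.sub hp
  have hup : ∀ p ∈ G, ∀ q ∈ D.P ρ, Le p q → q ∈ G := fun p hp q hq h =>
    hfil.up p hp q ((b7 D.L ρ q p).2 ⟨hmem p hp, hq, h⟩)
  refine ⟨⟨FK D.N _ _ G hD.zfc hP hR hpo hG', i2, i3, ?_, ?_⟩, ⟨hfil.sub, ?_, hup, ?_, ?_⟩, ?_⟩
  · refine (hD.ctb.image (val G)).mono ?_
    rintro y ⟨x, hx, rfl⟩
    exact ⟨x, hx, rfl⟩
  · intro α
    exact ⟨fun h => FL.2.2 D.N G α hzf h, fun h => i2 _ h⟩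
  · obtain ⟨p, hp⟩ := hfil.ne
    exact hup p hp ∅ (b1 D.L ρ) (b4 D.L ρ p (hmem p hp)).2
  · intro p hp q hq
    obtain ⟨s, hs, h1, h2⟩ := hfil.dir p hp q hq
    have h1' := ((b7 D.L ρ p s).1 h1).2.2
    have h2' := ((b7 D.L ρ q s).1 h2).2.2
    obtain ⟨e1, e2, -⟩ := BE D.L ρ p q hC (hmem p hp) (hmem q hq)
    obtain ⟨hc, hle⟩ := e2 s (hmem s hs) h2' h1'
    obtain ⟨f1, f2, f3, -⟩ := e1 hc
    exact ⟨hc, hup s hs _ f1 hle, f2, f3⟩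
  · intro S hS p hp
    obtain ⟨-, h2, h3⟩ := b3 D.L ρ S p (hmem p hp) fun i hi _ => hS i hi
    exact hup p hp _ h2 h3
  · intro X p hX hp h
    obtain ⟨d, hd, hdX, hdp⟩ := FE D.N _ _ G X p hzf hP hR hpo hG' hX hp (by
      intro q hq
      obtain ⟨hq1, hq2, hq3⟩ := (b7 D.L ρ p q).1 hq
      obtain ⟨r, hr, hrP, hrq⟩ := h q hq1 hq3
      exact ⟨r, hr, (b7 D.L ρ q r).2 ⟨hrP, hq1, hrq⟩⟩)
    exact ⟨d, hd, hdX, ((b7 D.L ρ p d).1 hdp).2.2⟩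

end H34SE
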