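import Pool.Agent.H45.SE.TarT

/-! # SE, module THd: trivial names -/

set_option linter.unusedVariables false

open Ordinal Order Set
open scoped ZFSet

namespace H34SE

open SF SE

theorem thd (AG : T_AG) (AH : T_AH) (BA : T_BA) (BBa : T_BBa) (BK : T_BK) : T_THd := by
  intro D hD i G hi hL hC hG
  have hzf : ZFm D.N := hD.zfc.toZFCm.toZFm
  obtain ⟨-, -, -, -, tS, -, tZ, -⟩ := BBa
  have hS : ∀ j, D.N j → D.N (lS j) := fun j hj => tS.1 D.N hzf (fun _ => j) (fun _ => hj)
  have hZ : ∀ j, D.N j → D.N (lZ j) := fun j hj => tZ.1 D.N hzf (fun _ => j) (fun _ => hj)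
  obtain ⟨k1, k2⟩ := BK D hD (lS i) G (hS i hi) hC hG
  obtain ⟨h1, h2, h3, h4, h5, h6⟩ := AH
  have hne : ∀ x y, Rl x → Rl y → kc 0 ≠ prl x y := fun x y hx hy h => h6 x y hx hy h.symm
  refine ⟨?_, ?_⟩
  · rintro he ⟨j, hj, -, hj2⟩
    rw [he] at hj2
    have hjN : D.N j := hzf.trans _ (hS i hi) _ hj
    obtain ⟨hLj, hsj⟩ := hC j hj
    exact hne _ _ (k1 (lS j) (lZ j) (hS j hjN) hsj hLj.tr (hZ j hjN) hLj.z).1 (k2 j hj).1 hj2
  · intro k hk h
    have hkr : Rl (cg G k) := (k2 k hk).1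
    have n1 : nS 0 ≠ nS 1 := fun h => absurd (nS_inj.1 h) (by decide)
    have n2 : nS 0 ≠ nS 2 := fun h => absurd (nS_inj.1 h) (by decide)
    refine ⟨?_, ?_, ?_, ?_⟩
    · intro e _ y _ hy hz
      rcases h with h | h
      · rw [h] at hz
        exact absurd hz (hne _ _ (h4 0).1 (h1 _ _ hkr hy).1)
      · exact absurd (h.symm.trans e) n1
    · intro e _ y _ hy hz
      rcases h with h | h
      · rw [h] at hz
        exact absurd hz (hne _ _ (h4 1).1 (h1 _ _ hkr hy).1)
      · exact absurd (h.symm.trans e) n1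
    · intro e hz
      rcases h with h | h
      · rw [h] at hz
        exact absurd hz (hne _ _ (h4 2).1 hkr)
      · exact absurd (h.symm.trans e) n2
    · intro e hz
      rcases h with h | h
      · rw [h] at hz
        exact absurd hz (hne _ _ (h4 3).1 hkr)
      · exact absurd (h.symm.trans e) n2

end H34SE
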