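import Pool.Agent.H45.SE.TarT

/-! # SE, module TJ: pull back of the generic filter -/

set_option linter.unusedVariables false

open Ordinal Order Set
open scoped ZFSet

namespace H34SE

open SF SE

theorem tj (BA : T_BA) (BC : T_BC) (BD : T_BD) (BJ : T_BJ) (BL : T_BL) (TBb : T_TBb)
    (TBc : T_TBc) (TBe : T_TBe) (TCa : T_TCa) (TCb : T_TCb) (TEc : T_TEc) (TI : T_TI)
    (ZA : T_ZA) : T_TJ := by
  intro D hD G hG s hs hsL hsT ρ' hρ' hC' hsub p' hp' hpG fl hfl hcp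
  obtain ⟨g, hg, hfg, hmv⟩ := TI D hD G hG s hs hsL hsT ρ' hρ' hC' hsub p' hp' hpG fl hfl hcp
  obtain ⟨zH, zC, -⟩ := ZA D hD
  have hok := hD.ok
  obtain ⟨-, -, hN, -⟩ := BJ D hok
  obtain ⟨-, -, -, -, -, -, a7⟩ := BA
  obtain ⟨-, -, b3, b4, -⟩ := BD
  obtain ⟨-, -, -, c4, -⟩ := BC
  have hCs : Cld D.L s := (a7 D.L D.Lam zC).2.2 s hsL hsT
  have hps : rst s p' ∈ D.P s := (b3 D.L ρ' s p' hp' fun i hi _ => hsT i hi).1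
  obtain ⟨d1, d2, d3, -⟩ := TBc D hok s hs hCs (rst s p') hps
  have hcpd : D.Cpd g (idm s) s s (rst s p') ρ' p' fl :=
    ⟨d1, hρ', hC', hsub, hp', (b4 D.L s _ hps).1, hg, hfg, hfl⟩
  generalize hπ : cpm D.L g (idm s) s p' fl ρ' = π at hmv
  generalize hρ : cpi D.L g (idm s) s p' fl ρ' = ρ''
  obtain ⟨e1, e2, e3, e4, -⟩ := TEc D hok g (idm s) s s (rst s p') ρ' p' fl hcpd π ρ''
    hπ.symm hρ.symm
  have hL'' : ρ'' ⊆ D.Lam := hρ ▸ hcp g hg hfg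
  have hN'' : D.N ρ'' := hN _ e1.h'
  have hT'' : Tr ρ'' := (a7 D.L ρ'' e1.c').1
  have hid : Idn π s := fun i hi => (e3 i hi).trans (d3 i hi)
  obtain ⟨-, l2⟩ := BL D hok D.Lam G hD.lam zC hG
  obtain ⟨m1, -, -, m4, -, -, m7⟩ := l2 ρ'' hN'' hL'' hT''
  obtain ⟨-, -, -, t4, -⟩ := TBb D.L π ρ' ρ'' p' e1.c e1.c' e1.i
  obtain ⟨-, s2, s3, -⟩ := TBe D.L π ρ' ρ'' p' e1.c e1.c' e1.i
  have hmem : mv π p' ∈ gs G ρ'' := (m4 _).2 ⟨hmv, ((c4 _ _ _).1 t4).2.1⟩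
  obtain ⟨j1, -⟩ := TCa D hok π ρ' ρ'' p' e1
  obtain ⟨-, j2⟩ := TCa D hok (inv π) ρ'' ρ' (mv π p') j1
  obtain ⟨u1, u2, -, u4, u5⟩ := j2 (gs G ρ'') m1 hmem
  rw [s2] at u2 u5
  rw [s3] at u5
  obtain ⟨-, -, v3⟩ := TCb D hok π ρ' ρ'' p' e1 _ u1 u2
  obtain ⟨-, -, v4, -⟩ := v3 s (hN _ hs) hsub hsT hid
  refine ⟨π, ρ'', gp D.L (inv π) (mv π p') ρ' (gs G ρ''), e1, fun h => e4 h d2, hid, e2, hL'',
    u1, u2, u5, ⟨⟨hρ', hC', u1⟩, hsub, ?_⟩, u4⟩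
  rw [← v4, u5]
  exact m7 s e2

end H34SE
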